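import Pool.Agent.Helper53.PB.WFive

/-!
# Smallest point sets meeting all generators of `W(2n+1,3)`

The minimum is `11 * 3 ^ (n - 1)` for all `n ≥ 1`.
-/

set_option autoImplicit false

open Module
open scoped LinearAlgebra.Projectivization

namespace Pool.Agent.Helper45.Old.SymplecticThree

open Pool.Agent.Helper53.PB

universe u v

theorem main (F : Type u) [Field F] [Finite F] (hF : Nat.card F = 3) (n : ℕ) :
    SympMin.{u, v} F (n + 2) (11 * 3 ^ n) ∨ n = 0 := by
  rcases Nat.eq_zero_or_pos n with h | h
  · exact Or.inr h
  left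
  induction n, h using Nat.le_induction with
  | base =>
    intro V _ _ _ φ hφ hV
    refine ⟨?_, fun T hT => ?_⟩
    · obtain ⟨T, hT, hle⟩ := symp_cone (m := 11) (r := 2) (fun φ h1 h2 => by
        have := symp_two_upper φ h1 h2
        rw [hF] at this
        exact this) φ hφ hV
      rw [hF] at hle
      exact ⟨T, hT, hle⟩
    · exact w5_lower hF φ hφ hV T hT
  | succ n hn ih =>
    have h2 : Nat.card F * (11 * 3 ^ n) = 11 * 3 ^ (n + 1) := by
      rw [hF]
      ring
    rw [← h2]
    exact SympMin.step (by omega) (by
      rw [hF]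
      exact (dvd_pow_self 3 (by omega)).mul_left _) ih

/-- Let `V` be a vector space of dimension `2 n + 2`, `n ≥ 1`, over a field with three elements,
with a non-degenerate alternating form `B`. The smallest size of a set of points of `PG(2n+1,3)`
that meets every generator of the symplectic polar space `W(2n+1,3)` is `11 * 3 ^ (n - 1)`. -/
theorem result (F : Type u) [Field F] (hF : Nat.card F = 3) (V : Type v) [AddCommGroup V]
    [Module F V] [FiniteDimensional F V] (B : LinearMap.BilinForm F V) (alt : ∀ x, B x x = 0)
    (nondeg : ∀ x, (∀ y, B x y = 0) → x = 0) (n : ℕ) (hn : 1 ≤ n)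
    (hV : finrank F V = 2 * n + 2) :
    IsLeast {k | ∃ T : Finset (ℙ F V), Blocking (Form.symplectic B alt nondeg) T ∧ T.card = k}
      (11 * 3 ^ (n - 1)) := by
  have hfin : Finite F := Nat.finite_of_card_ne_zero (by rw [hF]; norm_num)
  have hfinV : Finite V := Module.finite_of_finite F
  have key : (∃ T : Finset (ℙ F V), (Form.symplectic B alt nondeg).toPolar.Block T ∧
      T.card ≤ 11 * 3 ^ (n - 1)) ∧
      ∀ T : Finset (ℙ F V), (Form.symplectic B alt nondeg).toPolar.Block T →
        11 * 3 ^ (n - 1) ≤ T.card := by
    rcases Nat.lt_or_ge n 2 with h | h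
    · have hn1 : n = 1 := by omega
      subst hn1
      refine ⟨?_, fun T hT => ?_⟩
      · have := symp_two_upper (Form.symplectic B alt nondeg) rfl hV
        rw [hF] at this
        exact this
      · exact w3_lower hF (Form.symplectic B alt nondeg) rfl hV T hT
    · exact (main F hF (n - 1)).resolve_right (by omega) V (Form.symplectic B alt nondeg) rfl
        (by omega)
  obtain ⟨⟨T, hT, hle⟩, hge⟩ := key
  constructor
  · exact ⟨T, (blocking_iff _ _).2 hT, le_antisymm hle (hge T hT)⟩
  · rintro k ⟨T', hT', rfl⟩
    exact hge T' ((blocking_iff _ _).1 hT')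

end Pool.Agent.Helper45.Old.SymplecticThree
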