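import Pool.Agent.Helper93.Geo.TieCrit

namespace Pool.Agent.Results.MP_bf8038_al.TieDensity

open Pool.Agent.Helper90.Spinal Pool.Agent.Helper93.Geo Filter Topology

/-- The tie criterion. Let `S` be a finite subset of a group with subexponential volume growth.
The geodesic growth is subexponential if and only if, for every `N`, the largest number of pairwise
disjoint ties of length at most `N` (subwords with a second geodesic word for the same value) in a
geodesic word of length at most `n` is `o(n)`. -/
theorem result (G : Type*) [Group G] (S : Set G) (hS : S.Finite)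
    (hv : Tendsto (fun n : ℕ => (volumeGrowth S n : ℝ) ^ (1 / (n : ℝ))) atTop (𝓝 1)) :
    Tendsto (fun n : ℕ => (geodesicGrowth S n : ℝ) ^ (1 / (n : ℝ))) atTop (𝓝 1) ↔
      ∀ N : ℕ, Tendsto (fun n : ℕ => (tieNumber S N n : ℝ) / n) atTop (𝓝 0) :=
  tie_criterion hS hv

end Pool.Agent.Results.MP_bf8038_al.TieDensity
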